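import Pool.Agent.MP_a61dd1_gt.Mg.Main

namespace Pool.Agent.Results.MP_a61dd1_gt.TenTori

open Pool.Agent.MP_a61dd1_gt

/-- There is a smooth link of ten 3-tori in the 5-sphere with aspherical complement. -/
theorem result : ∃ T : Fin 10 → Set (Sphere 5),
    IsTorusLink 5 10 T ∧ IsAspherical ↥(⋃ j, T j)ᶜ :=
  exists_link

end Pool.Agent.Results.MP_a61dd1_gt.TenTori
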